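import Pool.Agent.H247.UC.Stm

/-!
# Project UC (helper247): the estimate EST (helper115)
-/

set_option autoImplicit false

open scoped Manifold ContDiff Topology
open Set

namespace Pool.Agent.H115.UC

open Pool.Agent.Y640.CLA (pw pw_nonneg pw_mono pw_mul pw_scale pw_le_one le_pw pw_zero)
open Pool.Agent.H247.UC (S_EST)

/-- Smooth maps are bounded and Lipschitz on compact convex sets. -/
theorem lipc {X Y : Type} [NormedAddCommGroup X] [NormedSpace ℝ X] [NormedAddCommGroup Y]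
    [NormedSpace ℝ Y] {F : X → Y} {U S : Set X} (hU : IsOpen U) (hF : ContDiffOn ℝ ∞ F U)
    (hS : IsCompact S) (hc : Convex ℝ S) (hSU : S ⊆ U) :
    ∃ K : ℝ, 1 ≤ K ∧ (∀ z ∈ S, ‖F z‖ ≤ K) ∧ ∀ z ∈ S, ∀ z' ∈ S, ‖F z - F z'‖ ≤ K * ‖z - z'‖ := by
  obtain ⟨K1, hK1⟩ := hS.exists_bound_of_continuousOn (hF.continuousOn.mono hSU)
  obtain ⟨K2, hK2⟩ := hS.exists_bound_of_continuousOn
    ((hF.continuousOn_fderiv_of_isOpen hU (by simp)).mono hSU)
  refine ⟨max 1 (max K1 K2), le_max_left _ _,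
    fun z hz => (hK1 z hz).trans ((le_max_left _ _).trans (le_max_right _ _)), ?_⟩
  intro z hz z' hz'
  refine hc.norm_image_sub_le_of_norm_fderiv_le (𝕜 := ℝ) (fun w hw => ?_) (fun w hw => ?_) hz' hz
  · exact (hF.contDiffAt (hU.mem_nhds (hSU hw))).differentiableAt (by simp)
  · exact (hK2 w hw).trans ((le_max_right _ _).trans (le_max_right _ _))

/-- Small radii. -/
theorem small_rad {α C s : ℝ} (hα : 0 < α) (hC : 0 < C) (hs : 0 < s) :
    ∃ r : ℝ, 0 < r ∧ ∀ t : ℝ, 0 ≤ t → t ≤ r → C * pw α t ≤ s := by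
  refine ⟨(s / C) ^ (1 / α), by positivity, fun t ht htr => ?_⟩
  have h1 := pw_mono hα ht htr
  have h2 : pw α ((s / C) ^ (1 / α)) = s / C := by
    unfold pw
    rw [← Real.rpow_mul (by positivity), one_div_mul_cancel hα.ne', Real.rpow_one]
  rw [h2] at h1
  calc C * pw α t ≤ C * (s / C) := mul_le_mul_of_nonneg_left h1 hC.le
    _ = s := by field_simp

/-- Interpolation. -/
theorem interp {α t A M Q ε : ℝ} (ht : 0 ≤ t) (hε : 0 < ε) (hA : A ≤ M)
    (hB : A ≤ Q * pw α t) (hM : 0 ≤ M) (hMQ : M * Q ≤ ε ^ 2) : A ≤ ε * pw (α / 2) t := by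
  have hp : 0 ≤ pw (α / 2) t := pw_nonneg ht
  rcases le_or_gt A 0 with h | h
  · exact h.trans (by positivity)
  · have h1 : pw α t = pw (α / 2) t ^ 2 := by
      unfold pw
      rw [← Real.rpow_natCast, ← Real.rpow_mul ht]
      congr 1
      push_cast
      ring
    have h2 : A ^ 2 ≤ (ε * pw (α / 2) t) ^ 2 := by
      have h3 : A * A ≤ M * (Q * pw α t) := mul_le_mul hA hB h.le hM
      rw [mul_pow, ← h1]
      have h4 : M * (Q * pw α t) ≤ ε ^ 2 * pw α t := by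
        rw [← mul_assoc]
        exact mul_le_mul_of_nonneg_right hMQ (pw_nonneg ht)
      nlinarith
    exact (sq_le_sq₀ h.le (by positivity)).1 h2

/-- The algebra of the norm estimate. -/
theorem ring_bd {A : Type} [NormedRing A] {a b c d f : A} {K s ρ : ℝ} (hK : 1 ≤ K) (hs : 0 ≤ s)
    (hρ : ρ ≤ 1) (hab : ‖a - b‖ ≤ K * (s * (3 * K * ρ))) (hc : ‖c‖ ≤ K)
    (ha : ‖a‖ ≤ K) (hd : ‖d‖ ≤ s) (hf : ‖f‖ ≤ K) :
    ‖(a - b) * c + a * (d * f)‖ ≤ 4 * K ^ 3 * s := by
  have hab0 : 0 ≤ K * (s * (3 * K * ρ)) := (norm_nonneg _).trans hab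
  have h1 : ‖(a - b) * c‖ ≤ K * (s * (3 * K * ρ)) * K :=
    (norm_mul_le _ _).trans (mul_le_mul hab hc (norm_nonneg _) hab0)
  have h2 : ‖a * (d * f)‖ ≤ K * (s * K) :=
    (norm_mul_le _ _).trans (mul_le_mul ha ((norm_mul_le _ _).trans
      (mul_le_mul hd hf (norm_nonneg _) hs)) (norm_nonneg _) (by linarith))
  have h3 : K * (s * (3 * K * ρ)) * K ≤ 3 * K ^ 3 * s := by
    have : K * (s * (3 * K * ρ)) * K = 3 * K ^ 3 * s * ρ := by ring
    rw [this]
    exact mul_le_of_le_one_right (by positivity) hρ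
  have h4 : K * (s * K) ≤ K ^ 3 * s := by
    have : K ^ 3 * s - K * (s * K) = K ^ 2 * s * (K - 1) := by ring
    have h5 : 0 ≤ K ^ 2 * s * (K - 1) := mul_nonneg (by positivity) (by linarith)
    linarith
  have h5 := norm_add_le ((a - b) * c) (a * (d * f))
  linarith

/-- The algebra of the Hölder estimate. -/
theorem ring_hol {A : Type} [NormedRing A] {a a' b b' c c' d d' f f' : A} {K C τ p : ℝ}
    (hK : 1 ≤ K) (hC : 0 ≤ C) (hτ : 0 ≤ τ) (hτp : τ ≤ p)
    (haa : ‖a - a'‖ ≤ K * (2 * K * τ)) (hbb : ‖b - b'‖ ≤ K * (K * τ)) (hc : ‖c‖ ≤ K)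
    (ha' : ‖a'‖ ≤ K) (hb' : ‖b'‖ ≤ K) (hcc : ‖c - c'‖ ≤ K * τ) (hd : ‖d‖ ≤ 1) (hd' : ‖d'‖ ≤ 1)
    (hf : ‖f‖ ≤ K) (hdd : ‖d - d'‖ ≤ C * (K * p)) (hff : ‖f - f'‖ ≤ K * τ) :
    ‖((a - b) * c + a * (d * f)) - ((a' - b') * c' + a' * (d' * f'))‖ ≤ (8 + C) * K ^ 4 * p := by
  have hK0 : 0 ≤ K := by linarith
  have hp : 0 ≤ p := hτ.trans hτp
  have e1 : ((a - b) * c + a * (d * f)) - ((a' - b') * c' + a' * (d' * f')) =
      ((a - a') * c - (b - b') * c) + (a' * (c - c') - b' * (c - c')) + (a - a') * (d * f) +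
        a' * ((d - d') * f) + a' * (d' * (f - f')) := by noncomm_ring
  have m : ∀ {y z : A} {Y Z : ℝ}, ‖y‖ ≤ Y → ‖z‖ ≤ Z → 0 ≤ Y → ‖y * z‖ ≤ Y * Z :=
    fun hy hz hY => (norm_mul_le _ _).trans (mul_le_mul hy hz (norm_nonneg _) hY)
  have n1 := m haa hc (by positivity)
  have n2 := m hbb hc (by positivity)
  have n3 := m ha' hcc hK0
  have n4 := m hb' hcc hK0
  have n5 := m haa (m hd hf zero_le_one) (by positivity)
  have n6 := m ha' (m hdd hf (by positivity)) hK0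
  have n7 := m ha' (m hd' hff zero_le_one) hK0
  have t1 := norm_sub_le ((a - a') * c) ((b - b') * c)
  have t2 := norm_sub_le (a' * (c - c')) (b' * (c - c'))
  have t3 := norm_add_le ((a - a') * c - (b - b') * c) (a' * (c - c') - b' * (c - c'))
  have t4 := norm_add_le (((a - a') * c - (b - b') * c) + (a' * (c - c') - b' * (c - c')))
    ((a - a') * (d * f))
  have t5 := norm_add_le (((a - a') * c - (b - b') * c) + (a' * (c - c') - b' * (c - c')) +
    (a - a') * (d * f)) (a' * ((d - d') * f))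
  have t6 := norm_add_le (((a - a') * c - (b - b') * c) + (a' * (c - c') - b' * (c - c')) +
    (a - a') * (d * f) + a' * ((d - d') * f)) (a' * (d' * (f - f')))
  rw [e1]
  have hsum : K * (2 * K * τ) * K + K * (K * τ) * K + (K * (K * τ) + K * (K * τ)) +
      K * (2 * K * τ) * (1 * K) + K * (C * (K * p) * K) + K * (1 * (K * τ)) ≤
      (8 + C) * K ^ 4 * p := by
    have k2 : K ^ 2 ≤ K ^ 4 := pow_le_pow_right₀ hK (by norm_num)
    have k3 : K ^ 3 ≤ K ^ 4 := pow_le_pow_right₀ hK (by norm_num)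
    have e2 : K * (2 * K * τ) * K + K * (K * τ) * K + (K * (K * τ) + K * (K * τ)) +
      K * (2 * K * τ) * (1 * K) + K * (C * (K * p) * K) + K * (1 * (K * τ)) =
      5 * (K ^ 3 * τ) + 3 * (K ^ 2 * τ) + C * (K ^ 3 * p) := by ring
    have a1 : K ^ 3 * τ ≤ K ^ 4 * p := mul_le_mul k3 hτp hτ (by positivity)
    have a2 : K ^ 2 * τ ≤ K ^ 4 * p := mul_le_mul k2 hτp hτ (by positivity)
    have a3 : C * (K ^ 3 * p) ≤ C * (K ^ 4 * p) :=
      mul_le_mul_of_nonneg_left (mul_le_mul_of_nonneg_right k3 hp) hC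
    rw [e2]
    have e3 : (8 + C) * K ^ 4 * p = 8 * (K ^ 4 * p) + C * (K ^ 4 * p) := by ring
    rw [e3]
    linarith
  linarith

/-- **EST.** -/
theorem est : S_EST := by
  classical
  intro X _ _ _ B B' Ψ R x α C ε hα hα1 hC hε hnt hR hB hB' hΨ hBo hBR hΨB
  have hprop : ProperSpace X := FiniteDimensional.proper ℝ X
  have hQc : IsCompact (Metric.closedBall x 2) := isCompact_closedBall x 2
  have hQv : Convex ℝ (Metric.closedBall x 2) := convex_closedBall x 2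
  obtain ⟨K1, hK1, -, hB1⟩ := lipc isOpen_univ hB.contDiffOn hQc hQv (subset_univ _)
  obtain ⟨K2, hK2, -, hB'1⟩ := lipc isOpen_univ hB'.contDiffOn hQc hQv (subset_univ _)
  obtain ⟨K3, hK3, hdB0, hdB1⟩ := lipc (F := fderiv ℝ B) isOpen_univ
    (hB.fderiv_right (m := ∞) (by simp)).contDiffOn hQc hQv (subset_univ _)
  obtain ⟨K4, hK4, hdB'0, hdB'1⟩ := lipc (F := fderiv ℝ B') isOpen_univ
    (hB'.fderiv_right (m := ∞) (by simp)).contDiffOn hQc hQv (subset_univ _)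
  obtain ⟨r', hr', hball⟩ := Metric.isOpen_iff.1 hR (B' x) (hBR x)
  have hP : Metric.closedBall (B' x) (r' / 2) ⊆ R :=
    (Metric.closedBall_subset_ball (by linarith)).trans hball
  have hPc : IsCompact (Metric.closedBall (B' x) (r' / 2)) := isCompact_closedBall _ _
  have hPv : Convex ℝ (Metric.closedBall (B' x) (r' / 2)) := convex_closedBall _ _
  obtain ⟨K5, hK5, -, hΨ1⟩ := lipc hR hΨ hPc hPv hP
  obtain ⟨K6, hK6, hdΨ0, hdΨ1⟩ := lipc (F := fderiv ℝ Ψ) hR
    (hΨ.fderiv_of_isOpen hR (m := ∞) (by simp)) hPc hPv hP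
  obtain ⟨K, hKdef⟩ : ∃ K : ℝ, K = K1 + K2 + K3 + K4 + K5 + K6 := ⟨_, rfl⟩
  have hK : 1 ≤ K := by linarith
  have hK0 : 0 < K := by linarith
  have up : ∀ {k t : ℝ}, k ≤ K → 0 ≤ t → k * t ≤ K * t := fun h ht =>
    mul_le_mul_of_nonneg_right h ht
  -- the constants
  obtain ⟨s, hs0, hs1, hs2, hs3, hs4⟩ : ∃ s : ℝ, 0 < s ∧ s ≤ 1 ∧ 6 * K ^ 2 * s ≤ 1 ∧
      4 * K ^ 3 * s ≤ ε ∧ 8 * K ^ 3 * s * ((8 + C) * K ^ 4) ≤ ε ^ 2 := by
    have p1 : 0 < 6 * K ^ 2 := by positivity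
    have p2 : 0 < 4 * K ^ 3 := by positivity
    have p3 : 0 < 8 * K ^ 3 * ((8 + C) * K ^ 4) := by positivity
    refine ⟨min (min 1 (1 / (6 * K ^ 2))) (min (ε / (4 * K ^ 3))
      (ε ^ 2 / (8 * K ^ 3 * ((8 + C) * K ^ 4)))), by positivity, ?_, ?_, ?_, ?_⟩
    · exact (min_le_left _ _).trans (min_le_left _ _)
    · have h := (min_le_left (min 1 (1 / (6 * K ^ 2))) (min (ε / (4 * K ^ 3))
        (ε ^ 2 / (8 * K ^ 3 * ((8 + C) * K ^ 4))))).trans (min_le_right _ _)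
      rw [le_div_iff₀ p1] at h
      linarith
    · have h := (min_le_right (min 1 (1 / (6 * K ^ 2))) (min (ε / (4 * K ^ 3))
        (ε ^ 2 / (8 * K ^ 3 * ((8 + C) * K ^ 4))))).trans (min_le_left _ _)
      rw [le_div_iff₀ p2] at h
      linarith
    · have h := (min_le_right (min 1 (1 / (6 * K ^ 2))) (min (ε / (4 * K ^ 3))
        (ε ^ 2 / (8 * K ^ 3 * ((8 + C) * K ^ 4))))).trans (min_le_right _ _)
      rw [le_div_iff₀ p3] at h
      linarith
  obtain ⟨r, hr, hrs⟩ := small_rad hα hC hs0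
  refine ⟨min (min (1 / 2) (r / (3 * K))) (min (r' / (8 * K)) (2 * ε)), by positivity, ?_⟩
  intro ρ hρ hρr h hh hhol hann
  have hρ1 : ρ ≤ 1 / 2 := hρr.trans ((min_le_left _ _).trans (min_le_left _ _))
  have hρ2 : 3 * K * ρ ≤ r := by
    have := hρr.trans ((min_le_left _ _).trans (min_le_right _ _))
    rw [le_div_iff₀ (by positivity)] at this
    linarith
  have hρ3 : 8 * K * ρ ≤ r' := by
    have := hρr.trans ((min_le_right _ _).trans (min_le_left _ _))
    rw [le_div_iff₀ (by positivity)] at this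
    linarith
  have hρ4 : ρ ≤ 2 * ε := hρr.trans ((min_le_right _ _).trans (min_le_right _ _))
  have hsub : Metric.closedBall x ρ ⊆ Metric.closedBall x 2 :=
    Metric.closedBall_subset_closedBall (by linarith)
  have hhd : ∀ y, DifferentiableAt ℝ h y := fun y => hh.differentiable (by simp) y
  -- the base point
  obtain ⟨v, hv⟩ := exists_norm_eq X (zero_le_one (α := ℝ))
  obtain ⟨u0, hu0⟩ : ∃ u0 : X, u0 = x + (3 / 2 * ρ) • v := ⟨_, rfl⟩
  have hu0n : ‖u0 - x‖ = 3 / 2 * ρ := by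
    rw [hu0, add_sub_cancel_left, norm_smul, hv, mul_one, Real.norm_eq_abs,
      abs_of_nonneg (by positivity)]
  have hu0Q : u0 ∈ Metric.closedBall x 2 := by
    rw [mem_closedBall_iff_norm, hu0n]
    linarith
  have hopen : IsOpen {u : X | ρ < ‖u - x‖ ∧ ‖u - x‖ < 2 * ρ} := by
    refine IsOpen.inter ?_ ?_
    · exact isOpen_lt continuous_const (continuous_id.sub continuous_const).norm
    · exact isOpen_lt (continuous_id.sub continuous_const).norm continuous_const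
  have hA0 : ∀ y ∈ B '' {u : X | ρ < ‖u - x‖ ∧ ‖u - x‖ < 2 * ρ}, h y = 0 := by
    rintro _ ⟨u, hu, rfl⟩
    exact hann u hu.1.le hu.2
  have hmem0 : B u0 ∈ B '' {u : X | ρ < ‖u - x‖ ∧ ‖u - x‖ < 2 * ρ} := by
    refine ⟨u0, ⟨?_, ?_⟩, rfl⟩
    · rw [hu0n]; linarith
    · rw [hu0n]; linarith
  have hfd0 : fderiv ℝ h (B u0) = 0 := by
    have h1 : h =ᶠ[𝓝 (B u0)] fun _ => (0 : X) := by
      filter_upwards [(hBo _ hopen).mem_nhds hmem0] with y hy
      exact hA0 y hy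
    rw [h1.fderiv_eq, fderiv_fun_const]
    rfl
  have hh0 : h (B u0) = 0 := hA0 _ hmem0
  -- the ball around `B u0`
  have hS : ∀ u ∈ Metric.closedBall x ρ, B u ∈ Metric.closedBall (B u0) (3 * K * ρ) := by
    intro u hu
    rw [mem_closedBall_iff_norm]
    have h1 := hB1 u (hsub hu) u0 hu0Q
    have h2 : ‖u - u0‖ ≤ 5 / 2 * ρ := by
      rw [mem_closedBall_iff_norm] at hu
      have h3 : u - u0 = (u - x) - (u0 - x) := by abel
      rw [h3]
      refine (norm_sub_le _ _).trans ?_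
      rw [hu0n]
      linarith
    calc ‖B u - B u0‖ ≤ K1 * ‖u - u0‖ := h1
      _ ≤ K * ‖u - u0‖ := up (by linarith) (norm_nonneg _)
      _ ≤ K * (5 / 2 * ρ) := mul_le_mul_of_nonneg_left h2 hK0.le
      _ ≤ 3 * K * ρ := by nlinarith [mul_pos hK0 hρ]
  have hD : ∀ y ∈ Metric.closedBall (B u0) (3 * K * ρ), ‖fderiv ℝ h y‖ ≤ s := by
    intro y hy
    have h1 := hhol y (B u0)
    rw [hfd0, sub_zero] at h1
    rw [mem_closedBall_iff_norm] at hy
    exact h1.trans (hrs _ (norm_nonneg _) (hy.trans hρ2))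
  have hLip : ∀ y ∈ Metric.closedBall (B u0) (3 * K * ρ),
      ∀ y' ∈ Metric.closedBall (B u0) (3 * K * ρ), ‖h y - h y'‖ ≤ s * ‖y - y'‖ := by
    intro y hy y' hy'
    exact (convex_closedBall _ _).norm_image_sub_le_of_norm_fderiv_le (𝕜 := ℝ)
      (fun w _ => hhd w) (fun w hw => hD w hw) hy' hy
  have hval : ∀ u ∈ Metric.closedBall x ρ, ‖h (B u)‖ ≤ s * (3 * K * ρ) := by
    intro u hu
    have h1 := hLip (B u) (hS u hu) (B u0) (Metric.mem_closedBall_self (by positivity))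
    rw [hh0, sub_zero] at h1
    have h2 := hS u hu
    rw [mem_closedBall_iff_norm] at h2
    exact h1.trans (mul_le_mul_of_nonneg_left h2 hs0.le)
  -- the points of the target
  have hB'x : ∀ u ∈ Metric.closedBall x ρ, ‖B' u - B' x‖ ≤ K * ρ := by
    intro u hu
    have h1 := hB'1 u (hsub hu) x (Metric.mem_closedBall_self (by norm_num))
    rw [mem_closedBall_iff_norm] at hu
    exact h1.trans ((up (by linarith) (norm_nonneg _)).trans
      (mul_le_mul_of_nonneg_left hu hK0.le))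
  have hB'P : ∀ u ∈ Metric.closedBall x ρ, B' u ∈ Metric.closedBall (B' x) (r' / 2) := by
    intro u hu
    rw [mem_closedBall_iff_norm]
    refine (hB'x u hu).trans ?_
    nlinarith [mul_pos hK0 hρ]
  have hqP : ∀ u ∈ Metric.closedBall x ρ,
      B' u + h (B u) ∈ Metric.closedBall (B' x) (r' / 2) := by
    intro u hu
    rw [mem_closedBall_iff_norm]
    have h3 : B' u + h (B u) - B' x = (B' u - B' x) + h (B u) := by abel
    rw [h3]
    refine (norm_add_le _ _).trans ?_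
    have h1 := hB'x u hu
    have h2 := hval u hu
    have h4 : s * (3 * K * ρ) ≤ 3 * K * ρ := mul_le_of_le_one_left (by positivity) hs1
    linarith
  have hΨq : ∀ u ∈ Metric.closedBall x ρ, ‖Ψ (B' u + h (B u)) - u‖ ≤
      K * (s * (3 * K * ρ)) := by
    intro u hu
    have h1 := hΨ1 _ (hqP u hu) _ (hB'P u hu)
    rw [hΨB, add_sub_cancel_left] at h1
    exact h1.trans ((up (by linarith) (norm_nonneg _)).trans
      (mul_le_mul_of_nonneg_left (hval u hu) hK0.le))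
  have hdq : ∀ u ∈ Metric.closedBall x ρ,
      ‖fderiv ℝ Ψ (B' u + h (B u)) - fderiv ℝ Ψ (B' u)‖ ≤ K * (s * (3 * K * ρ)) := by
    intro u hu
    have h1 := hdΨ1 _ (hqP u hu) _ (hB'P u hu)
    rw [add_sub_cancel_left] at h1
    exact h1.trans ((up (by linarith) (norm_nonneg _)).trans
      (mul_le_mul_of_nonneg_left (hval u hu) hK0.le))
  -- the derivative
  have hder : ∀ u ∈ Metric.closedBall x ρ, fderiv ℝ (fun u => Ψ (B' u + h (B u)) - u) u =
      (fderiv ℝ Ψ (B' u + h (B u)) - fderiv ℝ Ψ (B' u)) * fderiv ℝ B' u +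
        fderiv ℝ Ψ (B' u + h (B u)) * (fderiv ℝ h (B u) * fderiv ℝ B u) := by
    intro u hu
    have dB : HasFDerivAt B (fderiv ℝ B u) u := (hB.differentiable (by simp) u).hasFDerivAt
    have dB' : HasFDerivAt B' (fderiv ℝ B' u) u := (hB'.differentiable (by simp) u).hasFDerivAt
    have dh : HasFDerivAt h (fderiv ℝ h (B u)) (B u) := (hhd _).hasFDerivAt
    have dΨ : ∀ y ∈ R, HasFDerivAt Ψ (fderiv ℝ Ψ y) y := fun y hy =>
      ((hΨ.contDiffAt (hR.mem_nhds hy)).differentiableAt (by simp)).hasFDerivAt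
    have d1 : HasFDerivAt (fun u => B' u + h (B u))
        (fderiv ℝ B' u + (fderiv ℝ h (B u)).comp (fderiv ℝ B u)) u := dB'.add (dh.comp u dB)
    have d2 : HasFDerivAt (fun u => Ψ (B' u + h (B u)) - u)
        ((fderiv ℝ Ψ (B' u + h (B u))).comp
          (fderiv ℝ B' u + (fderiv ℝ h (B u)).comp (fderiv ℝ B u)) -
            ContinuousLinearMap.id ℝ X) u :=
      ((dΨ _ (hP (hqP u hu))).comp u d1).sub (hasFDerivAt_id u)
    have d3 : HasFDerivAt (fun u => Ψ (B' u)) ((fderiv ℝ Ψ (B' u)).comp (fderiv ℝ B' u)) u :=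
      (dΨ _ (hBR u)).comp u dB'
    have d4 : (fun u => Ψ (B' u)) = fun u => u := funext hΨB
    rw [d4] at d3
    have d5 : (fderiv ℝ Ψ (B' u)).comp (fderiv ℝ B' u) = ContinuousLinearMap.id ℝ X :=
      d3.unique (hasFDerivAt_id u)
    rw [d2.fderiv, ← d5]
    change fderiv ℝ Ψ (B' u + h (B u)) * (fderiv ℝ B' u + fderiv ℝ h (B u) * fderiv ℝ B u) -
      fderiv ℝ Ψ (B' u) * fderiv ℝ B' u = _
    noncomm_ring
  have hnorm : ∀ u ∈ Metric.closedBall x ρ,
      ‖fderiv ℝ (fun u => Ψ (B' u + h (B u)) - u) u‖ ≤ 4 * K ^ 3 * s := by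
    intro u hu
    rw [hder u hu]
    exact ring_bd hK hs0.le (by linarith) (hdq u hu) ((hdB'0 u (hsub hu)).trans (by linarith))
      ((hdΨ0 _ (hqP u hu)).trans (by linarith)) (hD _ (hS u hu))
      ((hdB0 u (hsub hu)).trans (by linarith))
  refine ⟨fun u hu => ⟨hP (hqP u hu), ?_, ?_, (hnorm u hu).trans hs3⟩, ?_⟩
  · refine (hΨq u hu).trans ?_
    have h1 : K * (s * (3 * K * ρ)) = (6 * K ^ 2 * s) * (ρ / 2) := by ring
    rw [h1]
    exact mul_le_of_le_one_left (by positivity) hs2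
  · refine (hΨq u hu).trans ?_
    have h1 : K * (s * (3 * K * ρ)) = (6 * K ^ 2 * s) * (ρ / 2) := by ring
    rw [h1]
    refine (mul_le_of_le_one_left (by positivity) hs2).trans ?_
    linarith
  · intro u hu u' hu'
    have hτ0 : 0 ≤ ‖u - u'‖ := norm_nonneg _
    have hτ1 : ‖u - u'‖ ≤ 1 := by
      rw [mem_closedBall_iff_norm] at hu hu'
      have h3 : u - u' = (u - x) - (u' - x) := by abel
      rw [h3]
      refine (norm_sub_le _ _).trans ?_
      linarith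
    have hτp := le_pw hα hα1 hτ0 hτ1
    have hBuu : ‖B u - B u'‖ ≤ K * ‖u - u'‖ :=
      (hB1 u (hsub hu) u' (hsub hu')).trans (up (by linarith) hτ0)
    have hB'uu : ‖B' u - B' u'‖ ≤ K * ‖u - u'‖ :=
      (hB'1 u (hsub hu) u' (hsub hu')).trans (up (by linarith) hτ0)
    have hhuu : ‖h (B u) - h (B u')‖ ≤ K * ‖u - u'‖ := by
      refine (hLip _ (hS u hu) _ (hS u' hu')).trans ?_
      exact (mul_le_of_le_one_left (norm_nonneg _) hs1).trans hBuu
    have haa : ‖fderiv ℝ Ψ (B' u + h (B u)) - fderiv ℝ Ψ (B' u' + h (B u'))‖ ≤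
        K * (2 * K * ‖u - u'‖) := by
      refine (hdΨ1 _ (hqP u hu) _ (hqP u' hu')).trans ?_
      refine (up (by linarith) (norm_nonneg _)).trans ?_
      refine mul_le_mul_of_nonneg_left ?_ hK0.le
      have h3 : B' u + h (B u) - (B' u' + h (B u')) = (B' u - B' u') + (h (B u) - h (B u')) := by
        abel
      rw [h3]
      refine (norm_add_le _ _).trans ?_
      linarith
    have hbb : ‖fderiv ℝ Ψ (B' u) - fderiv ℝ Ψ (B' u')‖ ≤ K * (K * ‖u - u'‖) := by
      refine (hdΨ1 _ (hB'P u hu) _ (hB'P u' hu')).trans ?_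
      refine (up (by linarith) (norm_nonneg _)).trans ?_
      exact mul_le_mul_of_nonneg_left hB'uu hK0.le
    have hdd : ‖fderiv ℝ h (B u) - fderiv ℝ h (B u')‖ ≤ C * (K * pw α ‖u - u'‖) := by
      refine (hhol _ _).trans (mul_le_mul_of_nonneg_left ?_ hC.le)
      exact (pw_mono hα (norm_nonneg _) hBuu).trans (pw_scale hα1 hK hτ0)
    have h1 := ring_hol hK hC.le hτ0 hτp haa hbb ((hdB'0 u (hsub hu)).trans (by linarith))
      ((hdΨ0 _ (hqP u' hu')).trans (by linarith : K6 ≤ K))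
      ((hdΨ0 _ (hB'P u' hu')).trans (by linarith : K6 ≤ K))
      ((hdB'1 u (hsub hu) u' (hsub hu')).trans (up (by linarith) hτ0))
      ((hD _ (hS u hu)).trans hs1) ((hD _ (hS u' hu')).trans hs1)
      ((hdB0 u (hsub hu)).trans (by linarith : K3 ≤ K)) hdd
      ((hdB1 u (hsub hu) u' (hsub hu')).trans (up (by linarith) hτ0))
    rw [← hder u hu, ← hder u' hu'] at h1
    refine interp hτ0 hε (M := 8 * K ^ 3 * s) ?_ h1 (by positivity) hs4
    refine (norm_sub_le _ _).trans ?_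
    have h2 := hnorm u hu
    have h3 := hnorm u' hu'
    linarith

end Pool.Agent.H115.UC
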